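import Pool.Agent.Q46.DmI

open Set Filter Topology MeasureTheory Pool.Agent.Q46.Dm
open scoped RealInnerProductSpace ENNReal

namespace Pool.Agent.Results.MP_8bcfe8_an.Decreasing

variable {H : Type*} [NormedAddCommGroup H] [InnerProductSpace ℝ H] [CompleteSpace H]

lemma step {A : H →ₗ.[ℝ] H} (hd : Dense (A.domain : Set H)) (hsa : IsSelfAdjoint A) {b : ℝ} (hb : 0 < b)
    (hcoer : ∀ x : A.domain, b * ‖(x : H)‖ ^ 2 ≤ ⟪A x, (x : H)⟫) {c1 c2 : ℝ} (hc1 : 0 < c1) (hc : c1 ≤ c2)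
    {K : ℝ≥0∞} (hKt : K < ⊤) (hK : Admissible A c1 K) : Admissible A c2 K := by
  have hsym := selfadj_symm hd hsa
  have hc2 : 0 < c2 := hc1.trans_le hc
  have h1 : Admissible A c2 (ENNReal.ofReal K.toReal) := by
    refine upper hsym hc2 hb hcoer (exists_cut hd hsa hb hcoer) ENNReal.toReal_nonneg ?_
    intro P B hcut y0 z0 h0 hy0 T hT
    obtain ⟨y1, z1, h1, hy1, hz1⟩ := exists_sol B c1 (fun _ => 0) continuous_const 0 (z0 0)
    have hP0 := h0.cutoff hcut.comm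
    have hP1 := h1.cutoff hcut.comm
    simp only [map_zero] at hP0 hP1
    refine mono_bounded hcut.nice hc1 hc hP1 (by simp [hy1]) (by simp [hz1]) hP0 (by simp [hy0]) rfl ?_ hT
    intro S hS
    have := lower hsym hc1 hb hcoer hK hKt hcut h1 hy1 hS
    rw [hz1] at this
    exact this
  rwa [ENNReal.ofReal_toReal hKt.ne] at h1

lemma finite {A : H →ₗ.[ℝ] H} (hd : Dense (A.domain : Set H)) (hsa : IsSelfAdjoint A) {b : ℝ} (hb : 0 < b)
    (hcoer : ∀ x : A.domain, b * ‖(x : H)‖ ^ 2 ≤ ⟪A x, (x : H)⟫) {c : ℝ} (hc : 0 < c) :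
    Admissible A c (ENNReal.ofReal (4 * cM b c / cω b c)) := by
  have hsym := selfadj_symm hd hsa
  have hM := cM_pos (c := c) hb
  have hω := cω_pos hb hc
  refine upper hsym hc hb hcoer (exists_cut hd hsa hb hcoer) (by positivity) ?_
  intro P B hcut y0 z0 h0 hy0 T hT
  have hP := h0.cutoff hcut.comm
  simp only [map_zero] at hP
  have hder : ∀ r, HasDerivAt (fun r => -(4 * cM b c / cω b c * Real.exp (-(cω b c / 2 * r)) * ‖P (z0 0)‖))
      (2 * cM b c * Real.exp (-(cω b c / 2 * r)) * ‖P (z0 0)‖) r := by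
    intro r
    have h6 : HasDerivAt (fun s => Real.exp (-(cω b c / 2 * s))) (Real.exp (-(cω b c / 2 * r)) * (-(cω b c / 2))) r := by
      have := ((hasDerivAt_id r).const_mul (cω b c / 2)).neg.exp
      simpa using this
    refine ((h6.const_mul (4 * cM b c / cω b c)).mul_const ‖P (z0 0)‖).neg.congr_deriv ?_
    field_simp
    ring
  have h1 : ∫ t in (0:ℝ)..T, ‖P (z0 t)‖ ≤ ∫ t in (0:ℝ)..T, 2 * cM b c * Real.exp (-(cω b c / 2 * t)) * ‖P (z0 0)‖ := by
    refine intervalIntegral.integral_mono_on hT (hP.cv.norm.intervalIntegrable _ _)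
      ((by fun_prop : Continuous fun t => 2 * cM b c * Real.exp (-(cω b c / 2 * t)) * ‖P (z0 0)‖).intervalIntegrable _ _) ?_
    intro t ht
    exact hP.decay_v hcut.nice hc (by simp [hy0]) ht.1
  rw [intervalIntegral.integral_eq_sub_of_hasDerivAt (fun x _ => hder x)
    ((by fun_prop : Continuous fun t => 2 * cM b c * Real.exp (-(cω b c / 2 * t)) * ‖P (z0 0)‖).intervalIntegrable _ _)] at h1
  simp only [mul_zero, neg_zero, Real.exp_zero, mul_one] at h1
  have h2 : 0 ≤ 4 * cM b c / cω b c * Real.exp (-(cω b c / 2 * T)) * ‖P (z0 0)‖ := by positivity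
  linarith

lemma optK_lt_top {A : H →ₗ.[ℝ] H} (hd : Dense (A.domain : Set H)) (hsa : IsSelfAdjoint A) {b : ℝ} (hb : 0 < b)
    (hcoer : ∀ x : A.domain, b * ‖(x : H)‖ ^ 2 ≤ ⟪A x, (x : H)⟫) {c : ℝ} (hc : 0 < c) : optK A c < ⊤ :=
  lt_of_le_of_lt (sInf_le (finite hd hsa hb hcoer hc)) ENNReal.ofReal_lt_top

lemma optK_admissible {A : H →ₗ.[ℝ] H} (hd : Dense (A.domain : Set H)) (hsa : IsSelfAdjoint A) {b : ℝ} (hb : 0 < b)
    (hcoer : ∀ x : A.domain, b * ‖(x : H)‖ ^ 2 ≤ ⟪A x, (x : H)⟫) {c : ℝ} (hc : 0 < c) :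
    Admissible A c (optK A c) := by
  intro f u v hf hl hs
  have hKt := optK_lt_top hd hsa hb hcoer hc
  refine ENNReal.le_of_forall_pos_le_add ?_
  intro ε hε _
  set L := limsupNorm f with hL
  have hδ : 0 < (ε : ℝ≥0∞) / (L + 1) := by
    apply ENNReal.div_pos
    · exact_mod_cast hε.ne'
    · exact ENNReal.add_ne_top.2 ⟨hl.ne, ENNReal.one_ne_top⟩
  obtain ⟨K, hK, hKlt⟩ := sInf_lt_iff.1 (show sInf {K | Admissible A c K} < optK A c + ε / (L + 1) from
    ENNReal.lt_add_right hKt.ne hδ.ne')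
  have h1 := hK f u v hf hl hs
  refine h1.trans ?_
  calc K * L ≤ (optK A c + ε / (L + 1)) * L := by gcongr
    _ = optK A c * L + ε / (L + 1) * L := by rw [add_mul]
    _ ≤ optK A c * L + ε := by
      gcongr
      calc (ε : ℝ≥0∞) / (L + 1) * L ≤ ε / (L + 1) * (L + 1) := by gcongr; exact le_self_add
        _ = ε := ENNReal.div_mul_cancel (by simp) (ENNReal.add_ne_top.2 ⟨hl.ne, ENNReal.one_ne_top⟩)

/-- Let `A` be a densely defined self-adjoint coercive operator on a real Hilbert space. For every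
`c > 0` the optimal constant `K(A, c)` in `limsup ‖u'‖ ≤ K limsup ‖f‖` (weak solutions of
`u'' + c u' + A u = f`) is finite and attained, and `c ↦ K(A, c)` is decreasing. -/
theorem result (A : H →ₗ.[ℝ] H) (hd : Dense (A.domain : Set H)) (hsa : IsSelfAdjoint A)
    (hcoer : ∃ b : ℝ, 0 < b ∧ ∀ x : A.domain, b * ‖(x : H)‖ ^ 2 ≤ ⟪A x, (x : H)⟫) :
    (∀ c : ℝ, 0 < c → optK A c < ⊤ ∧ IsLeast {K : ℝ≥0∞ | Admissible A c K} (optK A c)) ∧
    (∀ c₁ c₂ : ℝ, 0 < c₁ → c₁ < c₂ → optK A c₂ ≤ optK A c₁) := by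
  obtain ⟨b, hb, hco⟩ := hcoer
  refine ⟨fun c hc => ⟨optK_lt_top hd hsa hb hco hc, optK_admissible hd hsa hb hco hc, fun K hK => sInf_le hK⟩, ?_⟩
  intro c₁ c₂ hc₁ hc
  exact sInf_le (step hd hsa hb hco hc₁ hc.le (optK_lt_top hd hsa hb hco hc₁) (optK_admissible hd hsa hb hco hc₁))

end Pool.Agent.Results.MP_8bcfe8_an.Decreasing
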